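import Mathlib

set_option autoImplicit false

namespace Pool.Agent.Results.MP_b9e574_gt.Game

open Filter Topology Set Relation

universe u

def NCover {X : Type u} [TopologicalSpace X] (n : ℕ) (𝓤 : Set (Set X)) : Prop :=
  (∀ U ∈ 𝓤, IsOpen U) ∧ ⋃₀ 𝓤 = univ ∧ univ ∉ 𝓤 ∧
    ∀ F : Finset X, F.card = n → ∃ U ∈ 𝓤, (F : Set X) ⊆ U

def GammaSeq {X : Type u} (U : ℕ → Set X) : Prop := ∀ x, ∀ᶠ n in atTop, x ∈ U n

def StrongGamma (X : Type u) [TopologicalSpace X] : Prop :=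
  ∀ 𝓤 : ℕ → Set (Set X), (∀ n, NCover (n + 1) (𝓤 n)) →
    ∃ U : ℕ → Set X, (∀ n, U n ∈ 𝓤 n) ∧ GammaSeq U

def hist {α : Type u} (U : ℕ → α) : ℕ → List α
  | 0 => []
  | n + 1 => U n :: hist U n

def OneWins (X : Type u) [TopologicalSpace X] : Prop :=
  ∃ σ : List (Set X) → Set (Set X), (∀ l, NCover (l.length + 1) (σ l)) ∧
    ∀ U : ℕ → Set X, (∀ n, U n ∈ σ (hist U n)) → ¬ GammaSeq U

theorem len {α : Type u} (U : ℕ → α) : ∀ n, (hist U n).length = n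
  | 0 => rfl
  | n + 1 => congrArg (· + 1) (len U n)

variable {X : Type u} [TopologicalSpace X]

def Sel (X : Type u) [TopologicalSpace X] : Prop :=
  ∀ (D : Type u) (𝓓 : ℕ → Set D) (W : ℕ → D → Set X), (∀ n, ∀ d ∈ 𝓓 n, IsOpen (W n d)) →
    (∀ n, ∀ F : Finset X, F.card ≤ n + 1 → ∃ d ∈ 𝓓 n, (F : Set X) ⊆ W n d) →
      ∃ d : ℕ → D, (∀ n, d n ∈ 𝓓 n) ∧ GammaSeq fun n => W n (d n)

theorem sel (h : StrongGamma X) {c : ℕ → Set (Set X)} (hc : ∀ n, NCover (n + 1) (c n)) :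
    Sel X := by
  classical
  intro D 𝓓 W h1 h2
  obtain ⟨U, h3, h4⟩ := h (fun n => if univ ∈ W n '' 𝓓 n then c n else W n '' 𝓓 n) fun n => by
    split_ifs with h3
    · exact hc n
    · refine ⟨by rintro _ ⟨d, hd, rfl⟩; exact h1 n d hd, eq_univ_of_forall fun x => ?_, h3,
        fun F hF => ?_⟩
      · obtain ⟨d, h4, h5⟩ := h2 n {x} (by simp)
        exact ⟨_, ⟨d, h4, rfl⟩, h5 (by simp)⟩
      · obtain ⟨d, h4, h5⟩ := h2 n F hF.le
        exact ⟨_, ⟨d, h4, rfl⟩, h5⟩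
  have h5 : ∀ n, ∃ d ∈ 𝓓 n, U n ⊆ W n d := fun n => by
    by_cases h5 : univ ∈ W n '' 𝓓 n
    · obtain ⟨d, h6, h7⟩ := h5
      exact ⟨d, h6, h7 ▸ subset_univ _⟩
    · obtain ⟨d, h6, h7⟩ := (by simpa only [if_neg h5] using h3 n : U n ∈ W n '' 𝓓 n)
      exact ⟨d, h6, h7.ge⟩
  choose d h5 h6 using h5
  exact ⟨d, h5, fun x => (h4 x).mono fun n hn => h6 n hn⟩

theorem game (h : Sel X) {S D : Type u} (𝓓 : S → Set D) (W : D → Set X)
    (h1 : ∀ a, ∀ d ∈ 𝓓 a, IsOpen (W d)) (h2 : ∀ a, ∀ F : Finset X, ∃ d ∈ 𝓓 a, (F : Set X) ⊆ W d)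
    (a0 : S) (nx : S → D → S) : ∃ (a : ℕ → S) (d : ℕ → D), a 0 = a0 ∧
      (∀ n, d n ∈ 𝓓 (a n) ∧ a (n + 1) = nx (a n) (d n)) ∧ GammaSeq fun n => W (d n) := by
  choose e e1 e2 using fun a => h D (fun _ => 𝓓 a) (fun _ => W) (fun _ => h1 a) fun _ F _ => h2 a F
  let st : List ℕ → S := fun t => t.rec a0 fun k _ a => nx a (e a k)
  obtain ⟨k, -, h3⟩ := h (ULift ℕ) (fun _ => univ)
    (fun j k => W (e (st (Denumerable.ofNat (List ℕ) j)) k.down)) (fun _ _ _ => h1 _ _ (e1 _ _))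
    fun j F _ => by
      obtain ⟨k, hk⟩ := ((eventually_all_finset F).2 fun x _ =>
        e2 (st (Denumerable.ofNat (List ℕ) j)) x).exists
      exact ⟨⟨k⟩, trivial, hk⟩
  let b : ℕ → List ℕ := fun n => n.rec [] fun _ t => (k (Encodable.encode t)).down :: t
  have h4 : ∀ n, (b n).length = n := fun n => by
    induction n with
    | zero => rfl
    | succ n ih => exact congrArg (· + 1) ih
  have h5 : Function.Injective fun n => Encodable.encode (b n) := fun n m e => by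
    rw [← h4 n, Encodable.encode_injective e, h4]
  refine ⟨fun n => st (b n), fun n => e (st (b n)) (k (Encodable.encode (b n))).down, rfl,
    fun n => ⟨e1 _ _, rfl⟩, fun x => ?_⟩
  simpa using h5.nat_tendsto_atTop.eventually (h3 x)

def R (σ : List (Set X) → Set (Set X)) (A : Set X) (s t : List (Set X)) : Prop :=
  ∃ U ∈ σ s, A ⊆ U ∧ t = U :: s

omit [TopologicalSpace X] in
theorem mono {σ : List (Set X) → Set (Set X)} {A B : Set X} (h : A ⊆ B) {s t : List (Set X)}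
    (h1 : TransGen (R σ B) s t) : TransGen (R σ A) s t := by
  induction h1 with
  | single h1 => obtain ⟨U, h2, h3, h4⟩ := h1; exact .single ⟨U, h2, h.trans h3, h4⟩
  | tail _ h1 ih => obtain ⟨U, h2, h3, h4⟩ := h1; exact ih.tail ⟨U, h2, h.trans h3, h4⟩

omit [TopologicalSpace X] in
theorem lenle {σ : List (Set X) → Set (Set X)} {A : Set X} {s t : List (Set X)}
    (h1 : TransGen (R σ A) s t) : s.length ≤ t.length := by
  induction h1 with
  | single h => obtain ⟨U, -, -, rfl⟩ := h; simp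
  | tail _ h ih => obtain ⟨U, -, -, rfl⟩ := h; exact ih.trans (by simp)

theorem opn {σ : List (Set X) → Set (Set X)} (hσ : ∀ l, NCover (l.length + 1) (σ l)) {A : Set X}
    {s t : List (Set X)} (h1 : TransGen (R σ A) s t) :
    ∃ W, IsOpen W ∧ A ⊆ W ∧ TransGen (R σ W) s t := by
  induction h1 with
  | single h =>
    obtain ⟨U, h2, h3, rfl⟩ := h
    exact ⟨U, (hσ _).1 U h2, h3, .single ⟨U, h2, le_rfl, rfl⟩⟩
  | tail _ h ih =>
    obtain ⟨U, h2, h3, rfl⟩ := h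
    obtain ⟨W, h4, h5, h6⟩ := ih
    exact ⟨W ∩ U, h4.inter ((hσ _).1 U h2), subset_inter h5 h3,
      (mono inter_subset_left h6).tail ⟨U, h2, inter_subset_right, rfl⟩⟩

theorem cov [Infinite X] {m : ℕ} {𝓤 : Set (Set X)} (h : NCover m 𝓤) {F : Finset X}
    (hF : F.card ≤ m) : ∃ U ∈ 𝓤, (F : Set X) ⊆ U := by
  obtain ⟨t, h1, h2⟩ := Infinite.exists_superset_card_eq F m hF
  obtain ⟨U, h3, h4⟩ := h.2.2.2 t h2
  exact ⟨U, h3, (Finset.coe_subset.2 h1).trans h4⟩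

theorem ext [Infinite X] {σ : List (Set X) → Set (Set X)}
    (hσ : ∀ l, NCover (l.length + 1) (σ l)) {F : Finset X} {s : List (Set X)}
    (hF : F.card ≤ s.length + 1) (k : ℕ) : ∃ t, k < t.length ∧ TransGen (R σ F) s t := by
  induction k with
  | zero =>
    obtain ⟨U, h1, h2⟩ := cov (hσ s) hF
    exact ⟨U :: s, by simp, .single ⟨U, h1, h2, rfl⟩⟩
  | succ k ih =>
    obtain ⟨t, h1, h2⟩ := ih
    obtain ⟨U, h3, h4⟩ := cov (hσ t) (hF.trans (Nat.succ_le_succ (lenle h2)))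
    exact ⟨U :: t, by simpa using h1, h2.tail ⟨U, h3, h4, rfl⟩⟩

theorem nb [Infinite X] {σ : List (Set X) → Set (Set X)}
    (hσ : ∀ l, NCover (l.length + 1) (σ l)) {S : Set (List (Set X))} (hS : S.Finite) (n : ℕ)
    (G : Finset X) : ∃ (V : Set X) (L : Set (List (Set X))), IsOpen V ∧ (G : Set X) ⊆ V ∧
      L.Finite ∧ (∀ t ∈ L, n < t.length) ∧ ∀ s ∈ S, ∀ F : Finset X, F.card ≤ s.length + 1 →
        (F : Set X) ⊆ V → ∃ t ∈ L, TransGen (R σ F) s t := by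
  classical
  have h1 : ∀ (s : List (Set X)) (F : Finset X), ∃ (A : Set X) (t : List (Set X)), IsOpen A ∧
      n < t.length ∧ (F.card ≤ s.length + 1 → (F : Set X) ⊆ A ∧ TransGen (R σ A) s t) :=
    fun s F => by
      by_cases hF : F.card ≤ s.length + 1
      · obtain ⟨t, h1, h2⟩ := ext hσ hF n
        obtain ⟨W, h3, h4⟩ := opn hσ h2
        exact ⟨W, t, h3, h1, fun _ => h4⟩
      · exact ⟨univ, List.replicate (n + 1) ∅, isOpen_univ, by simp, fun h => absurd h hF⟩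
  choose A τ h1 h2 h3 using h1
  let P : X → List (Set X) → Finset (Finset X) := fun x s =>
    G.powerset.filter fun F => x ∈ F ∧ F.card ≤ s.length + 1
  let V : X → Set X := fun x => ⋂ s ∈ S, ⋂ F ∈ P x s, A s F
  have v1 : ∀ x, IsOpen (V x) := fun x =>
    hS.isOpen_biInter fun s _ => isOpen_biInter_finset fun F _ => h1 s F
  have v2 : ∀ x, x ∈ V x := fun x => mem_iInter₂.2 fun s _ => mem_iInter₂.2 fun F hF =>
    (h3 s F (Finset.mem_filter.1 hF).2.2).1 (Finset.mem_filter.1 hF).2.1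
  have v3 : ∀ x s, s ∈ S → ∀ F ∈ P x s, V x ⊆ A s F := fun x s hs F hF z hz =>
    mem_iInter₂.1 (mem_iInter₂.1 hz s hs) F hF
  refine ⟨⋃ x ∈ G, V x, image2 τ S (G.powerset : Set (Finset X)),
    isOpen_biUnion fun x _ => v1 x, fun x hx => mem_biUnion hx (v2 x),
    hS.image2 _ (Finset.finite_toSet _), ?_, fun s hs F hF h4 => ?_⟩
  · rintro _ ⟨s, -, F, -, rfl⟩
    exact h2 s F
  have h5 : ∀ z ∈ F, ∃ x ∈ G, z ∈ V x := fun z hz => by
    obtain ⟨x, h5, h6⟩ := mem_iUnion₂.1 (h4 hz)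
    exact ⟨x, h5, h6⟩
  choose! φ h5 h6 using h5
  have h7 : F.image φ ∈ G.powerset := Finset.mem_powerset.2 (Finset.image_subset_iff.2 h5)
  have h8 : (F.image φ).card ≤ s.length + 1 := Finset.card_image_le.trans hF
  refine ⟨τ s (F.image φ), ⟨s, hs, _, h7, rfl⟩, mono (fun z hz => ?_) (h3 s _ h8).2⟩
  exact v3 _ s hs _ (Finset.mem_filter.2 ⟨h7, Finset.mem_image_of_mem φ hz, h8⟩) (h6 z hz)

theorem main (h : StrongGamma X) : ¬ OneWins X := by
  rintro ⟨σ, h1, h2⟩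
  have hc : ∀ n, NCover (n + 1) (σ (List.replicate n ∅)) := fun n => by
    simpa using h1 (List.replicate n ∅)
  rcases finite_or_infinite X with hX | hX
  · obtain ⟨U, h3, h4⟩ := h _ hc
    obtain ⟨n, hn⟩ := (eventually_all.2 h4).exists
    exact (hc n).2.2.1 (eq_univ_of_forall hn ▸ h3 n)
  have hs := sel h hc
  obtain ⟨a, d, a1, a2, a3⟩ := game hs (S := ℕ × Set (List (Set X)))
    (D := Set X × Set (List (Set X)))
    (fun a => {d | IsOpen d.1 ∧ (a.2.Finite → d.2.Finite ∧ (∀ t ∈ d.2, a.1 < t.length) ∧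
      ∀ s ∈ a.2, ∀ F : Finset X, F.card ≤ s.length + 1 → (F : Set X) ⊆ d.1 →
        ∃ t ∈ d.2, TransGen (R σ F) s t)})
    Prod.fst (fun _ _ hd => hd.1) (fun a F => by
      by_cases hL : a.2.Finite
      · obtain ⟨V, L, b1, b2, b3⟩ := nb h1 hL a.1 F
        exact ⟨(V, L), ⟨b1, fun _ => b3⟩, b2⟩
      · exact ⟨(univ, ∅), ⟨isOpen_univ, fun h => absurd h hL⟩, subset_univ _⟩)
    (0, {[]}) fun a d => (a.1 + 1, a.2 ∪ d.2)
  have a4 : ∀ n, (a n).1 = n ∧ (a n).2.Finite := fun n => by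
    induction n with
    | zero => exact a1 ▸ ⟨rfl, finite_singleton _⟩
    | succ n ih =>
      rw [(a2 n).2]
      exact ⟨congrArg (· + 1) ih.1, ih.2.union ((a2 n).1.2 ih.2).1⟩
  have a5 : Monotone fun n => (a n).2 := monotone_nat_of_le_succ fun n => by
    rw [(a2 n).2]; exact subset_union_left
  let L : ℕ → Set (List (Set X)) := fun n => {t ∈ (a n).2 | n ≤ t.length}
  let Φ : Set X × ℕ → List (Set X) → Prop := fun p s =>
    ∃ H, ∃ t ∈ L H, t.length ≤ p.2 ∧ TransGen (R σ p.1) s t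
  obtain ⟨p, b1, b2⟩ := hs (Set X × ℕ) (fun n => {p | IsOpen p.1 ∧ ∀ s ∈ L n, Φ p s})
    (fun _ => Prod.fst) (fun _ _ hd => hd.1) fun n F hF => by
      have b1 : ∀ s ∈ L n, ∃ W H, ∃ t ∈ L H, IsOpen W ∧ (F : Set X) ⊆ W ∧
          TransGen (R σ W) s t := fun s hs => by
        obtain ⟨H, b1, b2⟩ := (((eventually_all_finset F).2 fun x _ => a3 x).and
          (eventually_ge_atTop n)).exists
        obtain ⟨-, b3, b4⟩ := (a2 H).1.2 (a4 H).2
        obtain ⟨t, b5, b6⟩ := b4 s (a5 b2 hs.1) F (hF.trans (Nat.succ_le_succ hs.2)) b1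
        obtain ⟨W, b7⟩ := opn h1 b6
        exact ⟨W, H + 1, t, ⟨(a2 H).2 ▸ Or.inr b5, (a4 H).1 ▸ b3 t b5⟩, b7⟩
      choose! W H t c1 c2 c3 c4 using b1
      have c5 : (L n).Finite := (a4 n).2.subset fun _ h => h.1
      obtain ⟨B, hB⟩ := (c5.image fun s => (t s).length).bddAbove
      exact ⟨(⋂ s ∈ L n, W s, B), ⟨c5.isOpen_biInter c2, fun s hs => ⟨H s, t s, c1 s hs,
        hB ⟨s, hs, rfl⟩, mono (biInter_subset_of_mem hs) (c4 s hs)⟩⟩, subset_iInter₂ c3⟩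
  have b3 : ∀ q : ℕ × List (Set X), Φ (p q.1) q.2 →
      ∃ U m, U ∈ σ q.2 ∧ (p q.1).1 ⊆ U ∧ Φ (p m) (U :: q.2) := by
    rintro ⟨n, s⟩ ⟨H, t, c1, c2, c3⟩
    obtain ⟨_, ⟨U, c4, c5, rfl⟩, c6⟩ := TransGen.head'_iff.1 c3
    rcases reflTransGen_iff_eq_or_transGen.1 c6 with rfl | c7
    · exact ⟨U, H, c4, c5, (b1 H).2 _ c1⟩
    · exact ⟨U, n, c4, c5, H, t, c1, c2, c7⟩
  choose! U m c1 c2 c3 using b3
  let g : ℕ → ℕ × List (Set X) := fun n => n.rec (0, []) fun _ q => (m q, U q :: q.2)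
  have b4 : ∀ n, hist (fun n => U (g n)) n = (g n).2 ∧ Φ (p (g n).1) (g n).2 := fun n => by
    induction n with
    | zero => exact ⟨rfl, (b1 0).2 _ ⟨a1 ▸ rfl, le_rfl⟩⟩
    | succ n ih => exact ⟨congrArg (U (g n) :: ·) ih.1, c3 _ ih.2⟩
  have b5 : Tendsto (fun n => (g n).1) atTop atTop := tendsto_atTop.2 fun k => by
    obtain ⟨B, hB⟩ := ((finite_lt_nat k).image fun i => (p i).2).bddAbove
    filter_upwards [eventually_gt_atTop B] with n hn
    obtain ⟨e, _, _, -, c4, c5⟩ := b4 n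
    have c6 := lenle c5
    rw [← e, len] at c6
    exact not_lt.1 fun c7 => hn.not_ge (c6.trans (c4.trans (hB ⟨_, c7, rfl⟩)))
  exact h2 (fun n => U (g n)) (fun n => (b4 n).1.symm ▸ c1 _ (b4 n).2)
    fun x => (b5.eventually (b2 x)).mono fun n hn => c2 _ (b4 n).2 hn

theorem result (X : Type u) [TopologicalSpace X] : StrongGamma X ↔ ¬ OneWins X := by
  refine ⟨main, fun h 𝓤 h1 => by_contra fun h2 => h ⟨fun l => 𝓤 l.length, fun l => h1 _,
    fun U h3 h4 => h2 ⟨U, fun n => ?_, h4⟩⟩⟩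
  simpa only [len] using h3 n

end Pool.Agent.Results.MP_b9e574_gt.Game
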